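import Pool.Agent.Q60.RG.Log

/-!
# MP_f8720a_ag: Kato's conjecture for `X` and the kernel of the monodromy operator of `X × X`

Let `X` be a projective SNCL scheme over the log point of a finite field with `q` elements, `X × X` a
projective SNCL modification of the fibre product. The dimension of the kernel of the monodromy
operator `N` on `H^*(X × X)` is at least `∑ (dim gr^P_m H^m(X × X) + dim gr^P_(m + 1) H^m(X × X))`,
where `P` is the weight filtration. Equality holds if and only if Kato's conjecture is true for `X`:
the weight filtration is the monodromy filtration on all `H^m(X)`.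
-/

set_option autoImplicit false

open Module Filter Topology

universe u v w

namespace Pool.Agent.Results.MP_f8720a_ag.KernelOnSquares

open Pool.Agent.Y143 Pool.Agent.Y163.MW Pool.Agent.Q60.PL Pool.Agent.Q60.RG

/-- **The criterion on `X × X`.** -/
theorem result {Ω : Type w} [Field Ω] [CharZero Ω] [IsAlgClosed Ω]
    {T : LogTheory.{u, v, w} Ω} {q : ℕ} (hq : 1 < q) (hT : T.IsLog q) (X : T.Var) :
    T.predicted (T.prod X X) ≤ ((T.H (T.prod X X)).inv : ℤ) ∧
    (((T.H (T.prod X X)).inv : ℤ) = T.predicted (T.prod X X) ↔ ∀ m, T.Kato X m) := by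
  obtain ⟨κ, hκ⟩ := hT.kunneth X X
  obtain ⟨h1, h2⟩ := w_square hq (hT.coh X) (hT.coh _) hκ
  rw [hT.predicted_eq hq]
  refine ⟨by exact_mod_cast h1, ?_⟩
  rw [Nat.cast_inj, h2]
  exact forall_congr' fun m => (hT.kato_iff hq X m).symm

end Pool.Agent.Results.MP_f8720a_ag.KernelOnSquares
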