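import Pool.Agent.Q60.LO.Log

/-!
# MP_f8720a_ag: a Littlewood–Offord law for Kato's conjecture on products of different log schemes

Let `X_0, …, X_n` be projective SNCL schemes over the log point of a finite field, with total Betti
numbers `b_i`. The defect of a Frobenius eigenvalue of weight `k` on the graded piece
`M_r / M_(r - 1)` of the monodromy filtration of `H^m(X_0 × ⋯ × X_n)` is `k - m - r`; Kato's
conjecture predicts the defect `0`. If it holds for all `X_i`, all defects are `0`. If it fails for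
`k ≥ 1` of the `X_i`, with `b_i ≤ b` for these, then every single value of the defect occurs for at
most `√(b / (2 (k + 1))) ∏ b_i` of the `∏ b_i` eigenvalues. So, if a proportion `ρ` of the
eigenvalues has the predicted weight, then `k + 1 ≤ b / (2 ρ²)`.
-/

set_option autoImplicit false

open Module

universe u v w

namespace Pool.Agent.Results.MP_f8720a_ag.LittlewoodOfford

open Pool.Agent.Y143 Pool.Agent.Y163.MW Pool.Agent.Q60.LO Pool.Agent.Q60.RG

/-- **The Littlewood–Offord law for Kato's conjecture.** -/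
theorem result {Ω : Type w} [Field Ω] [CharZero Ω] [IsAlgClosed Ω]
    {T : LogTheory.{u, v, w} Ω} {q : ℕ} (hq : 1 < q) (hT : T.IsLog q) (n : ℕ)
    (X : Fin (n + 1) → T.Var) (M : ℤ → Submodule Ω (T.H (logProds T n X)).V)
    (hM : IsMonodromyFiltrationOn ⊤ (T.H (logProds T n X)).N M) :
    ((∀ i m, T.Kato (X i) m) →
      defects (T.H (logProds T n X)) q M 0 = ∏ i, (finrank Ω (T.H (X i)).V : ℤ)) ∧
    (∀ (F : Finset (Fin (n + 1))) (b : ℝ), F.Nonempty →
      (∀ i ∈ F, ¬ ∀ m, T.Kato (X i) m) → (∀ i ∈ F, (finrank Ω (T.H (X i)).V : ℝ) ≤ b) →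
      (∀ s : ℤ, (defects (T.H (logProds T n X)) q M s : ℝ) ≤
        √(b / (2 * ((F.card : ℝ) + 1))) * ∏ i, (finrank Ω (T.H (X i)).V : ℝ)) ∧
      ∀ (s : ℤ) (ρ : ℝ), 0 < ρ → (∀ i, 0 < finrank Ω (T.H (X i)).V) →
        ρ * ∏ i, (finrank Ω (T.H (X i)).V : ℝ) ≤ (defects (T.H (logProds T n X)) q M s : ℝ) →
        (F.card : ℝ) + 1 ≤ b / (2 * ρ ^ 2)) := by
  refine ⟨fun h => log_right hT hq n X hM h, fun F b hF hfail hb => ?_⟩
  have key := fun s => log_law hT hq n X hM F hF hfail hb s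
  refine ⟨key, fun s ρ hρ hpos h => ?_⟩
  have h1 : (0 : ℝ) < ∏ i, (finrank Ω (T.H (X i)).V : ℝ) :=
    Finset.prod_pos fun i _ => by exact_mod_cast hpos i
  have h2 : ρ ≤ √(b / (2 * ((F.card : ℝ) + 1))) := le_of_mul_le_mul_right (h.trans (key s)) h1
  have hk : (0 : ℝ) < (F.card : ℝ) + 1 := by positivity
  have hb0 : 0 ≤ b := by
    obtain ⟨i, hi⟩ := hF
    exact le_trans (by positivity) (hb i hi)
  have h3 : ρ ^ 2 ≤ b / (2 * ((F.card : ℝ) + 1)) := by
    have := pow_le_pow_left₀ hρ.le h2 2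
    rwa [Real.sq_sqrt (by positivity)] at this
  rw [le_div_iff₀ (by positivity)] at h3 ⊢
  linarith

end Pool.Agent.Results.MP_f8720a_ag.LittlewoodOfford
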