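import Pool.Agent.Q60.TV.Log

/-!
# MP_f8720a_ag: Kato's conjecture for `X` and the kernels of `N` on the products with test schemes

Let `X` be a projective SNCL scheme over the log point of a finite field, `P` the weight filtration
of its cohomology. For `r ≥ 0` let `window X r` be the sum of the dimensions of the
`gr^P_k H^m(X)` with `m - r < k ≤ m + r`.

* `window X r ≤ dim ker (N ^ r)`, and Kato's conjecture `P = M` holds for all the `H^m(X)` if and only
  if there is equality for all `r`.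
* Let `Y` be a projective SNCL scheme for which Kato's conjecture holds. Then the dimension of
  `ker N` on `H^*(X × Y)` minus `window (X × Y) 1` is the sum over all Jordan blocks of `N` on
  `H^*(Y)` of `dim ker (N ^ r ∣ H^*(X)) - window X r`, where `r` is the size of the block. If every
  size of a Jordan block of `N` on `H^*(X)` is also the size of a Jordan block on `H^*(Y)`, then
  Kato's conjecture holds for `X` if and only if this difference is zero.
* For instance, if `E` is a log Tate curve and `N ^ (n + 2) = 0` on `H^*(X)`, one may take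
  `Y = E^(n+1)`.
-/

set_option autoImplicit false

open Module

universe u v w

namespace Pool.Agent.Results.MP_f8720a_ag.TestSchemes

open Pool.Agent.Y143 Pool.Agent.Y163.MW Pool.Agent.Q60.RG Pool.Agent.Q60.TV

/-- **Test schemes for Kato's conjecture.** -/
theorem result {Ω : Type w} [Field Ω] [CharZero Ω] [IsAlgClosed Ω]
    {T : LogTheory.{u, v, w} Ω} {q : ℕ} (hq : 1 < q) (hT : T.IsLog q) (X : T.Var) :
    ((∀ r, window T X r ≤ kdim (T.H X) r) ∧
      ((∀ m, T.Kato X m) ↔ ∀ r, (kdim (T.H X) r : ℤ) = window T X r)) ∧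
    (∀ Y : T.Var, (∀ m, T.Kato Y m) →
      ((T.H (T.prod X Y)).inv : ℤ) - T.predicted (T.prod X Y) =
        ∑ᶠ r : ℕ, blocks (T.H Y) r * ((kdim (T.H X) (r + 1) : ℤ) - window T X (r + 1)) ∧
      ((∀ r, blocks (T.H X) r ≠ 0 → blocks (T.H Y) r ≠ 0) →
        ((∀ m, T.Kato X m) ↔ ((T.H (T.prod X Y)).inv : ℤ) = T.predicted (T.prod X Y)))) ∧
    (∀ (E : T.Var) (n : ℕ), IsTateCurve (T.H E) q → (T.H X).N ^ (n + 2) = 0 →
      ((∀ m, T.Kato X m) ↔
        ((T.H (T.prod X (T.pow E n))).inv : ℤ) = T.predicted (T.prod X (T.pow E n)))) := by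
  obtain ⟨B, hB⟩ := hT.dual X
  have hsym := w_finrank_tot_neg hq (hT.coh X) hB
  have hk : ∀ Y, (∀ m, T.Kato Y m) ↔ ∀ m, (T.H Y).MWPure q m := fun Y =>
    forall_congr' fun m => hT.kato_iff hq Y m
  simp only [hk, window_eq hq hT, hT.predicted_eq hq, Nat.cast_inj, Nat.cast_le]
  refine ⟨⟨wdim_le hq (hT.coh X), pure_iff hq (hT.coh X) hsym⟩, fun Y hY => ?_,
    fun E n hE hN => ?_⟩
  · obtain ⟨κ, hκ⟩ := hT.kunneth X Y
    exact ⟨defect_eq hq (hT.coh X) (hT.coh Y) (hT.coh _) hY hκ,
      fun hb => test_iff hq (hT.coh X) (hT.coh Y) (hT.coh _) hY hsym hb hκ⟩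
  · obtain ⟨κ, hκ⟩ := hT.kunneth X (T.pow E n)
    exact tate_test hq (A := fun n => T.H (T.pow E n)) (fun n => hT.coh _) hE
      (fun n => hT.kunneth E (T.pow E n)) (hT.coh X) hsym n hN (hT.coh _) hκ

end Pool.Agent.Results.MP_f8720a_ag.TestSchemes
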