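import Pool.Agent.Q60.RG.Log

/-!
# MP_f8720a_ag: monodromy and weight filtration on the powers of a projective SNCL scheme

Let `X` be a projective SNCL scheme over the log point of a finite field with `q` elements (the
powers `X^n` are projective SNCL modifications of the fibre products, which have the same Kummer log
étale cohomology), `N` the monodromy operator and `P` the weight filtration of the `H^m(X)`. Let `b`
be the sum of the dimensions of the `H^m(X)`, `A = 2 ∑ k rank (N ^ k)` and
`B = ∑ (k - m)² dim gr^P_k H^m(X)`.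

* `A ≤ B`, with equality if and only if Kato's conjecture is true for `X`: the weight filtration is
  the monodromy filtration on all `H^m(X)`.
* If `N` is not zero, the number of the Jordan blocks of size greater than `t √n` of the monodromy
  operator of `X^n` is asymptotic to `b^n √(2 b / (π A n)) exp (- t² b / (2 A))`.
* If `N` is not zero, the proportion of the graded pieces `gr^P_k H^m(X^n)` with `|k - m| ≤ t √n`
  tends to the probability that a normal variable of variance `B / b` is in `[-t, t]`.
* If `N` is not zero, the dimension of the kernel of `N` on `H^*(X^n)`, divided by the dimension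
  `∑ (dim gr^P_m H^m + dim gr^P_(m + 1) H^m)` predicted by the weight filtration, tends to `√(B / A)`.

Only Poincaré duality and the Künneth formula are used.
-/

set_option autoImplicit false

open Module Filter Topology

universe u v w

namespace Pool.Agent.Results.MP_f8720a_ag.WeightFiltrationPowers

open Pool.Agent.Y143 Pool.Agent.Y163.MW Pool.Agent.Q60.PL Pool.Agent.Q60.RG

/-- **Monodromy and weight filtration on powers.** -/
theorem result {Ω : Type w} [Field Ω] [CharZero Ω] [IsAlgClosed Ω]
    {T : LogTheory.{u, v, w} Ω} {q : ℕ} (hq : 1 < q) (hT : T.IsLog q) (X : T.Var)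
    (b A B : ℝ) (hb : b = finrank Ω (T.H X).V)
    (hA : A = (T.H X).totRankMoment) (hB : B = T.moment X) :
    A ≤ B ∧ (A = B ↔ ∀ m, T.Kato X m) ∧
    ((T.H X).N ≠ 0 →
      (∀ t : ℝ, 0 ≤ t → Tendsto (fun n : ℕ => √((n + 1 : ℕ) : ℝ) *
        ((numBlocks (T.H (T.pow X n)).N ⌊t * √((n + 1 : ℕ) : ℝ)⌋₊ : ℝ) / b ^ (n + 1))) atTop
        (𝓝 (√(2 * b / (Real.pi * A)) * Real.exp (-(t ^ 2 * b / (2 * A)))))) ∧
      (∀ t : ℝ, 0 ≤ t → Tendsto (fun n : ℕ =>
        (T.near (T.pow X n) (t * √((n + 1 : ℕ) : ℝ)) : ℝ) / b ^ (n + 1)) atTop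
        (𝓝 (normalWindow (t / √(B / b))))) ∧
      Tendsto (fun n : ℕ => ((T.H (T.pow X n)).inv : ℝ) / (T.predicted (T.pow X n) : ℝ)) atTop
        (𝓝 √(B / A))) := by
  obtain ⟨h1, h2, h3, -⟩ := powers_laws hq (hT.powers X) b A B hb hA
    (by rw [hB, hT.moment_eq hq X]; rfl)
  refine ⟨h1, h2.trans (forall_congr' fun m => (hT.kato_iff hq X m).symm), fun hN => ?_⟩
  obtain ⟨h4, h5, h6⟩ := h3 hN
  refine ⟨h4, fun t ht => (h5 t ht).congr fun n => ?_, h6.congr fun n => ?_⟩
  · rw [hT.near_eq hq]
  · rw [hT.predicted_eq hq]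
    push_cast
    rfl

end Pool.Agent.Results.MP_f8720a_ag.WeightFiltrationPowers
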